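import Pool.Agent.J4H22.IX.Stm2

set_option autoImplicit false

/-! Project IX (MP_e016b3_lc, 3SUM-Indexing), third part: the convolution form.  The weak structures have to be right only
for sets `{2 m i + α i : i < n}`, where `α` is a partial function to `{0, …, m - 1}`, `m = n / (log n) ^ D`
(Convolution-3SUM-Indexing), random, on queries with at most one representation. -/

namespace Pool.Agent.J4H22.IX

open Finset

/-- deterministic structures for the sets of a class `Cl` -/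
def CStructure (O : Type) (Ok : Finset ℕ → Finset ℕ → ℕ → O → Prop) (Cl : Finset ℕ → Prop) (s w t : ℕ) : Prop :=
  ∃ Q : ℕ → Tree (Fin s) (Fin (2 ^ w)) O, (∀ z, (Q z).Probes t) ∧
    ∀ A B : Finset ℕ, Cl A → Cl B → ∃ m : Fin s → Fin (2 ^ w), ∀ z, Ok A B z ((Q z).eval m)

/-- random structures (public coins) for the sets of a class `Cl` -/
def RCStructure (O : Type) (Ok : Finset ℕ → Finset ℕ → ℕ → O → Prop) (Cl : Finset ℕ → Prop) (s w t : ℕ) (δ : ℝ) : Prop :=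
  ∃ (Ω : Type) (_ : Fintype Ω) (μ : Ω → ℝ) (Q : Ω → ℕ → Tree (Fin s) (Fin (2 ^ w)) O),
    (∀ ω, 0 ≤ μ ω) ∧ ∑ ω, μ ω = 1 ∧ (∀ ω z, (Q ω z).Probes t) ∧
    ∀ A B : Finset ℕ, Cl A → Cl B →
      ∃ m : Ω → Fin s → Fin (2 ^ w), ∀ z,
        1 / 2 + δ ≤ ∑ ω, ({ω | Ok A B z ((Q ω z).eval (m ω))} : Set Ω).indicator μ ω

/-- `A = {2 m i + α i}` for a partial function `α` from `{0, …, n - 1}` to `{0, …, m - 1}` -/
def ConvSet (n m : ℕ) (A : Finset ℕ) : Prop :=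
  ∀ x ∈ A, x / (2 * m) < n ∧ x % (2 * m) < m ∧ ∀ x' ∈ A, x' / (2 * m) = x / (2 * m) → x' = x

def CForm (O : Type) (Ok : Finset ℕ → Finset ℕ → ℕ → O → Prop) (c : ℕ) (Cl : ℕ → Finset ℕ → Prop) : Prop :=
  ∃ (ε : ℝ) (C : ℕ), 0 < ε ∧ ∀ n : ℕ, 2 ≤ n → ∃ s t : ℕ, (s : ℝ) ≤ C * (n : ℝ) ^ (2 - ε) ∧
    t ≤ C * Nat.clog 2 n ^ C ∧ CStructure O Ok (Cl n) s (c * Nat.clog 2 n) t

/-- truly subquadratic space, polylogarithmic query time, advantage one over a polylogarithm -/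
def RCForm (O : Type) (Ok : Finset ℕ → Finset ℕ → ℕ → O → Prop) (c : ℕ) (Cl : ℕ → Finset ℕ → Prop) : Prop :=
  ∃ (ε : ℝ) (C : ℕ), 0 < ε ∧ ∀ n : ℕ, 2 ≤ n → ∃ s t : ℕ, (s : ℝ) ≤ C * (n : ℝ) ^ (2 - ε) ∧
    t ≤ C * Nat.clog 2 n ^ C ∧ RCStructure O Ok (Cl n) s (c * Nat.clog 2 n) t (1 / ((C + 1) * (Nat.clog 2 n : ℝ) ^ C))

/-! ### Derandomisation for a class -/

/-- piece AMC: AMP for a class -/
def S_AMC : Prop := S_CHE → S_TRE → S_IDX → ∀ (Cl : Finset ℕ → Prop) (s w t k : ℕ) (δ : ℝ), 0 < δ → δ < 1 / 2 →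
  (1 - 4 * δ ^ 2) ^ k ≤ 1 / 64 → RCStructure Bool OkWeak Cl s w t δ →
    RCStructure Bool OkWeak Cl (2 * k * s) w (2 * k * t) (31 / 64)

/-- piece DEC: DER for a class -/
def S_DEC : Prop := S_NEW → S_MAJ → S_TRE → S_IDX → ∀ (Cl : Finset ℕ → Prop) (n N s w t : ℕ), 8 ≤ w → n ^ 8 ≤ 2 ^ w →
  N ≤ 2 ^ w → (∀ A, Cl A → A.card ≤ n ∧ ∀ x ∈ A, x < N) → RCStructure Bool OkWeak Cl s w t (31 / 64) →
    CStructure Bool OkWeak Cl (2 * (w + 1) * (s + 2)) w (2 * (w + 1) * (t + 2))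

/-- piece RAC: RAS for a class -/
def S_RAC : Prop := S_AMC → S_DEC → S_CHE → S_NEW → S_MAJ → S_TRE → S_IDX → ∀ (c : ℕ) (Cl : ℕ → Finset ℕ → Prop), 8 ≤ c →
  (∀ n, 2 ≤ n → ∀ A, Cl n A → A.card ≤ n ∧ ∀ x ∈ A, x < 2 ^ (c * Nat.clog 2 n)) →
    RCForm Bool OkWeak c Cl → CForm Bool OkWeak c Cl

/-! ### Hashing into the convolution form, `256 n` positions, values `< n` -/

/-- `h = i n + r` becomes `2 n i + r` -/
def spr (n h : ℕ) : ℕ := h / n * (2 * n) + h % n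

/-- no other element of `A` has its hash in the same block -/
def Alone (p q n a : ℕ) (A : Finset ℕ) (x : ℕ) : Prop := ∀ x' ∈ A, hsh p q a x' / n = hsh p q a x / n → x' = x

open Classical in
/-- the convolution set of `A` -/
noncomputable def cvs (p q n a : ℕ) (A : Finset ℕ) : Finset ℕ := {x ∈ A | Alone p q n a A x}.image (fun x => spr n (hsh p q a x))

/-- the two queries for the sum `ζ` of two hashes -/
def qcv (n ζ : ℕ) (e : Fin 2) : ℕ := if e = 0 ∨ ζ / n = 0 then ζ / n * (2 * n) + ζ % n else (ζ / n - 1) * (2 * n) + ζ % n + n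

/-- `a` is good for `z` -/
def GoodC (p q n : ℕ) (A B : Finset ℕ) (z a : ℕ) : Prop :=
  (∀ b e, rep (cvs p q n a A) (cvs p q n a B) (qcv n (qry p q a z b) e) ≤ 1) ∧
  ((∃ b e, 1 ≤ rep (cvs p q n a A) (cvs p q n a B) (qcv n (qry p q a z b) e)) ↔ 1 ≤ rep A B z)

/-- piece HGC (as HG; `spr n h + spr n h' = 2 n (i + j) + (r + r')`) -/
def S_HGC : Prop := ∀ (p q n : ℕ) (A B : Finset ℕ) (z a : ℕ), 1 ≤ q → 1 ≤ p → 1 ≤ n → rep A B z ≤ 1 →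
  (∀ x ∈ A, ∀ y ∈ B, x + y ≠ z → ∀ d : ℤ, |d| < 2 * q → ¬ (p : ℤ) ∣ (a : ℤ) * (x + y - z) - d) →
  (∀ x ∈ A, ∀ y ∈ B, x + y = z → Alone p q n a A x ∧ Alone p q n a B y) → GoodC p q n A B z a

/-- piece HBC (as HB; at most `n ^ 2 (4 q - 2) + 4 n ^ 2 q` multipliers: in the same block means
`a (x' - x) = d` mod `p`, `0 < |d| < n q`) -/
def S_HBC : Prop := ∀ (p q n N : ℕ) (A B : Finset ℕ) (z : ℕ), p.Prime → 2 * N ≤ p → 1 ≤ n → 1 ≤ q → 256 * n ^ 2 ≤ p →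
  256 * n ^ 2 * (q - 1) ≤ p → A.card ≤ n → B.card ≤ n → (∀ x ∈ A, x < N) → (∀ y ∈ B, y < N) → z < 2 * N → rep A B z ≤ 1 →
  8 * {a : ℕ | 1 ≤ a ∧ a < p ∧ ((∃ x ∈ A, ∃ y ∈ B, x + y ≠ z ∧ ∃ d : ℤ, |d| < 2 * q ∧
    (p : ℤ) ∣ (a : ℤ) * (x + y - z) - d) ∨
    ∃ x ∈ A, ∃ y ∈ B, x + y = z ∧ ¬ (Alone p q n a A x ∧ Alone p q n a B y))}.ncard ≤ p - 1

/-- piece HSC (as HSH, `q = p / (256 n ^ 2) + 1`) -/
def S_HSC : Prop := S_MAJ → S_HGC → S_HBC → ∀ n w : ℕ, 1 ≤ n → 64 * n ^ 2 ≤ 2 ^ w →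
  ∃ p q : ℕ, 1 ≤ q ∧ p ≤ 2 ^ (w + 3) ∧ (∀ a A, ConvSet (256 * n) n (cvs p q n a A)) ∧
    ∀ A B : Finset ℕ, A.card ≤ n → B.card ≤ n → (∀ x ∈ A, x < 2 ^ w) → (∀ y ∈ B, y < 2 ^ w) →
      ∃ a : Fin (2 * (w + 1)) → ℕ, (∀ j, a j < p) ∧
        ∀ z < 2 ^ (w + 1), rep A B z ≤ 1 → {j | ¬ GoodC p q n A B z (a j)}.ncard < w + 1

/-- piece A1C (as A1, `κ = Fin (2 * (w + 1)) × Fin 4 × Fin 2`) -/
def S_A1C : Prop := S_HSC → S_MAJ → S_HGC → S_HBC → S_TRE → S_IDX → ∀ n s w t : ℕ, 1 ≤ n → 64 * n ^ 2 ≤ 2 ^ w →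
  CStructure Bool OkWeak (ConvSet (256 * n) n) s w t →
    Structure Bool OkWeak n (2 ^ w) (20 * (w + 1) * (s + 1)) w (20 * (w + 1) * (t + 1))

/-! ### Asymptotics -/

/-- piece SPC: SPL for a class -/
def S_SPC : Prop := S_IDX → ∀ (O : Type) (Ok : Finset ℕ → Finset ℕ → ℕ → O → Prop) (Cl : Finset ℕ → Prop) (s w w' r t : ℕ),
  w' ≤ r * w → CStructure O Ok Cl s w' t → CStructure O Ok Cl (r * s) w (r * t)

/-- piece EMB: more positions, larger values (`2 m i + r` becomes `2 m' i + r`) -/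
def S_EMB : Prop := ∀ n n' m m' s w t : ℕ, n ≤ n' → m ≤ m' → CStructure Bool OkWeak (ConvSet n' m') s w t →
  CStructure Bool OkWeak (ConvSet n m) s w t

/-- piece UNC: use the structure for `n' = K n (clog n) ^ D` -/
def S_UNC : Prop := S_SPC → S_EMB → S_IDX → ∀ c D : ℕ, 8 ≤ c →
  CForm Bool OkWeak c (fun n => ConvSet n (n / Nat.clog 2 n ^ D)) → CForm Bool OkWeak c (fun n => ConvSet (256 * n) n)

/-- the final statement: the weak convolution form <-> the form of the problem <-> the strongest form -/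
def S_FIN3 : Prop := ∀ c c' D : ℕ, 8 ≤ c → 8 ≤ c' →
  [RCForm Bool OkWeak c (fun n => ConvSet n (n / Nat.clog 2 n ^ D)), Form Bool OkFull c (fun n => 2 ^ (c * Nat.clog 2 n)),
    Form (Option (ℕ × ℕ) × ℕ) OkStrong c' (fun n => 2 ^ (c' * Nat.clog 2 n))].TFAE

/-- piece AS3: assembly (asymptotics of A1C; a convolution set has at most `n` elements below `2 n ^ 2`) -/
def S_AS3 : Prop := S_FIN →
  (∀ (c : ℕ) (Cl : ℕ → Finset ℕ → Prop), 8 ≤ c →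
    (∀ n, 2 ≤ n → ∀ A, Cl n A → A.card ≤ n ∧ ∀ x ∈ A, x < 2 ^ (c * Nat.clog 2 n)) →
    RCForm Bool OkWeak c Cl → CForm Bool OkWeak c Cl) →
  (∀ c D : ℕ, 8 ≤ c → CForm Bool OkWeak c (fun n => ConvSet n (n / Nat.clog 2 n ^ D)) →
    CForm Bool OkWeak c (fun n => ConvSet (256 * n) n)) →
  (∀ n s w t : ℕ, 1 ≤ n → 64 * n ^ 2 ≤ 2 ^ w → CStructure Bool OkWeak (ConvSet (256 * n) n) s w t →
    Structure Bool OkWeak n (2 ^ w) (20 * (w + 1) * (s + 1)) w (20 * (w + 1) * (t + 1))) → S_FIN3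

end Pool.Agent.J4H22.IX
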