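import Pool.Agent.J4H22.IX.Stm

set_option autoImplicit false

/-! Project IX, piece A1: from the small universe to the large one. -/

namespace Pool.Agent.J4H22.IX

open Finset

theorem rep_zero {A B : Finset ℕ} {N z : ℕ} (hA : ∀ x ∈ A, x < N) (hB : ∀ y ∈ B, y < N) (hz : 2 * N ≤ z) : rep A B z = 0 := by
  unfold rep
  rw [card_eq_zero, filter_eq_empty_iff]
  rintro ⟨x, y⟩ hq
  rw [mem_product] at hq
  have h1 := hA x hq.1
  have h2 := hB y hq.2
  simp only
  omega

theorem card_compl {k : ℕ} (P : Fin k → Prop) : {j | P j}.ncard + {j | ¬ P j}.ncard = k := by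
  have h := Set.ncard_add_ncard_compl {j : Fin k | P j}
  rw [Nat.card_eq_fintype_card, Fintype.card_fin] at h
  exact h

theorem t_A1 : S_A1 := by
  intro hH hM hG hB hT hI n s w t hn hw hS
  obtain ⟨Q, hQ, hS⟩ := hS
  obtain ⟨p, q, hq, hp, hlt, hab⟩ := hH hM hG hB n w hn hw
  have hn2 : 1 ≤ n ^ 2 := Nat.one_le_pow _ _ hn
  have h8 : 8 ≤ 2 ^ w := by omega
  have hw0 : 0 < 2 ^ w := by omega
  have : NeZero (2 ^ w) := ⟨hw0.ne'⟩
  obtain ⟨dec, hdec⟩ : ∃ dec : (Fin (2 * (w + 1)) × Fin 2 → Fin (2 ^ w)) → Fin (2 * (w + 1)) → ℕ,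
      ∀ e j, dec e j = (e (j, 1) : ℕ) * 2 ^ w + (e (j, 0) : ℕ) := ⟨_, fun _ _ => rfl⟩
  have hTr := fun z : ℕ => hT (Fin s) (Fin (2 ^ w)) Bool Bool (Fin (2 * (w + 1)) × Fin 2) (Fin (2 * (w + 1)) × Fin 4) Q t hQ
    (fun e c => qry p q (dec e c.1) z c.2)
    (fun _ r => @decide (z < 2 ^ (w + 1) ∧ w + 1 < {j | ∃ b, r (j, b) = true}.ncard) (Classical.propDecidable _))
  choose T hT1 hT2 using hTr
  have hcard : Fintype.card ((Fin (2 * (w + 1)) × Fin 2) ⊕ (Fin (2 * (w + 1)) × Fin 4) × Fin s) ≤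
      12 * (w + 1) * (s + 1) := by
    simp only [Fintype.card_sum, Fintype.card_prod, Fintype.card_fin]
    nlinarith
  have hprob : ∀ z, (T z).Probes (12 * (w + 1) * (t + 1)) := by
    intro z
    have h1 := hT1 z
    simp only [Fintype.card_prod, Fintype.card_fin] at h1
    have hmono : ∀ (U : Tree ((Fin (2 * (w + 1)) × Fin 2) ⊕ (Fin (2 * (w + 1)) × Fin 4) × Fin s) (Fin (2 ^ w)) Bool)
        (a b : ℕ), U.Probes a → a ≤ b → U.Probes b := by
      intro U
      induction U with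
      | ret o => intro a b _ _; cases b <;> exact trivial
      | probe i f ih =>
        intro a b h hab
        cases a with
        | zero => exact h.elim
        | succ a =>
          cases b with
          | zero => omega
          | succ b => exact fun v => ih v a b (h v) (by omega)
    exact hmono _ _ _ h1 (by nlinarith)
  obtain ⟨Q', h1, h2⟩ := hI _ (Fin (2 ^ w)) Bool (12 * (w + 1) * (s + 1)) (12 * (w + 1) * (t + 1)) hcard T hprob
  refine ⟨Q', h1, fun A B hA hB' hAN hBN => ?_⟩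
  obtain ⟨a, ha, hgood⟩ := hab A B hA hB' hAN hBN
  have hblk : ∀ j, ∃ m : Fin s → Fin (2 ^ w), ∀ z', OkWeak (A.image (hsh p q (a j))) (B.image (hsh p q (a j))) z'
      ((Q z').eval m) := by
    intro j
    apply hS _ _ (card_image_le.trans hA) (card_image_le.trans hB')
    · intro x hx
      obtain ⟨x', _, rfl⟩ := mem_image.1 hx
      exact hlt _ _
    · intro x hx
      obtain ⟨x', _, rfl⟩ := mem_image.1 hx
      exact hlt _ _
  choose blk hblk using hblk
  have hhi : ∀ j, a j / 2 ^ w < 2 ^ w := by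
    intro j
    have e1 : a j < 8 * 2 ^ w := by
      refine (ha j).trans_le (hp.trans (le_of_eq ?_))
      rw [pow_add]
      ring
    have e2 : a j / 2 ^ w < 8 := (Nat.div_lt_iff_lt_mul hw0).2 e1
    omega
  obtain ⟨mem, hmem1, hmem2, hmem3⟩ : ∃ mem : (Fin (2 * (w + 1)) × Fin 2) ⊕ (Fin (2 * (w + 1)) × Fin 4) × Fin s → Fin (2 ^ w),
      (∀ j, mem (Sum.inl (j, 0)) = ⟨a j % 2 ^ w, Nat.mod_lt _ hw0⟩) ∧ (∀ j, mem (Sum.inl (j, 1)) = ⟨a j / 2 ^ w, hhi j⟩) ∧
      (∀ j b i, mem (Sum.inr ((j, b), i)) = blk j i) :=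
    ⟨fun x => Sum.elim (fun e => if e.2 = 0 then ⟨a e.1 % 2 ^ w, Nat.mod_lt _ hw0⟩ else ⟨a e.1 / 2 ^ w, hhi e.1⟩)
      (fun c => blk c.1.1 c.2) x, fun j => by simp, fun j => by simp, fun j b i => rfl⟩
  obtain ⟨m', hm'⟩ := h2 mem
  refine ⟨m', fun z hz => ?_⟩
  rw [hm', hT2]
  have hde : ∀ j, dec (fun e => mem (Sum.inl e)) j = a j := by
    intro j
    rw [hdec, hmem1, hmem2]
    simp only
    exact Nat.div_add_mod' (a j) (2 ^ w)
  simp only [hde, hmem3]
  rw [decide_eq_true_iff]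
  by_cases hzN : z < 2 ^ (w + 1)
  · have hb := hgood z hzN hz
    have hgj : ∀ j, GoodMul p q A B z (a j) →
        ((∃ b, (Q (qry p q (a j) z b)).eval (fun i => blk j i) = true) ↔ 1 ≤ rep A B z) := by
      intro j hj
      rw [← hj.2]
      exact exists_congr fun b => hblk j _ (hj.1 b)
    constructor
    · rintro ⟨-, h3⟩
      by_contra h4
      have h5 : {j | ∃ b, (Q (qry p q (a j) z b)).eval (fun i => blk j i) = true}.ncard ≤
          {j | ¬ GoodMul p q A B z (a j)}.ncard := by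
        apply Set.ncard_le_ncard _ (Set.toFinite _)
        intro j hj hj'
        exact h4 ((hgj j hj').1 hj)
      omega
    · intro h3
      refine ⟨hzN, ?_⟩
      have h5 : {j | ¬ ∃ b, (Q (qry p q (a j) z b)).eval (fun i => blk j i) = true}.ncard ≤
          {j | ¬ GoodMul p q A B z (a j)}.ncard := by
        apply Set.ncard_le_ncard _ (Set.toFinite _)
        intro j hj hj'
        exact hj ((hgj j hj').2 h3)
      have h6 := card_compl (fun j : Fin (2 * (w + 1)) => ∃ b, (Q (qry p q (a j) z b)).eval (fun i => blk j i) = true)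
      omega
  · have h3 := rep_zero hAN hBN (show 2 * 2 ^ w ≤ z by rw [pow_succ] at hzN; omega)
    rw [h3]
    constructor
    · rintro ⟨h4, -⟩
      exact absurd h4 hzN
    · intro h4
      omega

end Pool.Agent.J4H22.IX
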