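import Pool.Agent.J4H22.IX.Stm2

set_option autoImplicit false

/-! Project IX, piece AS2: assembly. -/

namespace Pool.Agent.J4H22.IX

open Finset

theorem clog_pos {n : ℕ} (hn : 2 ≤ n) : 1 ≤ Nat.clog 2 n := Nat.clog_pos (by norm_num) hn

/-- a deterministic structure is a random structure with one coin -/
theorem structure_random {n N N' s w t : ℕ} {δ : ℝ} (hδ : 1 / 2 + δ ≤ 1) (hN : N' ≤ N) (h : Structure Bool OkFull n N s w t) :
    RStructure Bool OkWeak n N' s w t δ := by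
  obtain ⟨Q, hQ, hS⟩ := h
  refine ⟨Unit, inferInstance, fun _ => 1, fun _ => Q, fun _ => zero_le_one, by simp, fun _ => hQ, ?_⟩
  intro A B hA hB hAN hBN
  obtain ⟨m, hm⟩ := hS A B hA hB (fun x hx => (hAN x hx).trans_le hN) (fun y hy => (hBN y hy).trans_le hN)
  refine ⟨fun _ => m, fun z => ?_⟩
  refine hδ.trans ?_
  have h1 : () ∈ ({ω | OkWeak A B z ((Q z).eval m)} : Set Unit) := fun _ => hm z
  simp only [univ_unique, sum_singleton]
  rw [Set.indicator_of_mem (show (default : Unit) ∈ ({ω | OkWeak A B z ((Q z).eval m)} : Set Unit) from h1)]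

theorem sq_le_pow {n c : ℕ} (_ : 2 ≤ n) (hc : 8 ≤ c) : n ^ 2 ≤ 2 ^ (c * Nat.clog 2 n) := by
  have h1 : n ≤ 2 ^ Nat.clog 2 n := Nat.le_pow_clog (by norm_num) n
  calc n ^ 2 ≤ (2 ^ Nat.clog 2 n) ^ 2 := Nat.pow_le_pow_left h1 2
    _ = 2 ^ (2 * Nat.clog 2 n) := by rw [← pow_mul, mul_comm]
    _ ≤ 2 ^ (c * Nat.clog 2 n) := Nat.pow_le_pow_right (by norm_num) (Nat.mul_le_mul_right _ (by omega))

theorem t_AS2 : S_AS2 := by
  intro hF h1 h2 c c' D hc hc'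
  have h := hF c c' hc hc'
  have hN : ∀ n, 2 ≤ n → n ^ 2 / Nat.clog 2 n ^ D ≤ 2 ^ (c * Nat.clog 2 n) := fun n hn =>
    (Nat.div_le_self _ _).trans (sq_le_pow hn hc)
  tfae_have 1 → 2 := by
    intro hR
    exact (h.out 0 1).1 (h2 c D hc (h1 c _ hc hN hR))
  tfae_have 2 → 1 := by
    rintro ⟨ε, C, hε, hC⟩
    refine ⟨ε, C + 1, hε, fun n hn => ?_⟩
    obtain ⟨s, t, hs, ht, hst⟩ := hC n hn
    have hcl := clog_pos hn
    refine ⟨s, t, hs.trans ?_, ht.trans ?_, structure_random ?_ (hN n hn) hst⟩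
    · push_cast
      have : (0 : ℝ) ≤ (n : ℝ) ^ (2 - ε) := by positivity
      nlinarith
    · calc C * Nat.clog 2 n ^ C ≤ (C + 1) * Nat.clog 2 n ^ C := Nat.mul_le_mul_right _ (by omega)
        _ ≤ (C + 1) * Nat.clog 2 n ^ (C + 1) := Nat.mul_le_mul_left _ (Nat.pow_le_pow_right hcl (by omega))
    · have h3 : (1 : ℝ) ≤ (Nat.clog 2 n : ℝ) ^ (C + 1) := one_le_pow₀ (by exact_mod_cast hcl)
      have h4 : (2 : ℝ) ≤ (((C + 1 : ℕ) : ℝ) + 1) * (Nat.clog 2 n : ℝ) ^ (C + 1) := by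
        push_cast
        nlinarith [Nat.cast_nonneg (α := ℝ) C]
      have h5 : 1 / ((((C + 1 : ℕ) : ℝ) + 1) * (Nat.clog 2 n : ℝ) ^ (C + 1)) ≤ 1 / 2 :=
        one_div_le_one_div_of_le (by norm_num) h4
      linarith
  tfae_have 2 ↔ 3 := h.out 1 2
  tfae_finish

end Pool.Agent.J4H22.IX
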