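import Pool.Agent.J4H22.IX.Stm

set_option autoImplicit false

/-! Project IX, pieces TRE and IDX: decision trees. -/

namespace Pool.Agent.J4H22.IX

open Finset

variable {ι κ V O O' : Type}

/-- composition -/
def Tree.bind : Tree ι V O → (O → Tree ι V O') → Tree ι V O'
  | .ret o, g => g o
  | .probe i f, g => .probe i (fun v => (f v).bind g)

theorem Tree.eval_bind (m : ι → V) (T : Tree ι V O) (g : O → Tree ι V O') :
    (T.bind g).eval m = (g (T.eval m)).eval m := by
  induction T with
  | ret o => rfl
  | probe i f ih => exact ih (m i)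

theorem Tree.Probes.mono {T : Tree ι V O} : ∀ {t t' : ℕ}, T.Probes t → t ≤ t' → T.Probes t' := by
  induction T with
  | ret o =>
    intro t t' _ _
    cases t' <;> exact trivial
  | probe i f ih =>
    intro t t' h htt
    cases t with
    | zero => exact h.elim
    | succ t =>
      cases t' with
      | zero => omega
      | succ t' => exact fun v => ih v (h v) (by omega)

theorem Tree.probes_bind {T : Tree ι V O} {g : O → Tree ι V O'} {t' : ℕ} (hg : ∀ o, (g o).Probes t') :
    ∀ {t : ℕ}, T.Probes t → (T.bind g).Probes (t + t') := by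
  induction T with
  | ret o =>
    intro t _
    exact (hg o).mono (by omega)
  | probe i f ih =>
    intro t h
    cases t with
    | zero => exact h.elim
    | succ t =>
      rw [show t + 1 + t' = t + t' + 1 by omega]
      exact fun v => ih v (h v)

/-- other names of the cells -/
def Tree.rename (g : ι → κ) : Tree ι V O → Tree κ V O
  | .ret o => .ret o
  | .probe i f => .probe (g i) (fun v => (f v).rename g)

theorem Tree.eval_rename (g : ι → κ) (m : κ → V) (T : Tree ι V O) : (T.rename g).eval m = T.eval (fun i => m (g i)) := by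
  induction T with
  | ret o => rfl
  | probe i f ih => exact ih (m (g i))

theorem Tree.probes_rename (g : ι → κ) {T : Tree ι V O} : ∀ {t : ℕ}, T.Probes t → (T.rename g).Probes t := by
  induction T with
  | ret o =>
    intro t _
    cases t <;> exact trivial
  | probe i f ih =>
    intro t h
    cases t with
    | zero => exact h.elim
    | succ t => exact fun v => ih v (h v)

/-- a function of the result -/
def Tree.map (g : O → O') (T : Tree ι V O) : Tree ι V O' := T.bind (fun o => .ret (g o))

theorem Tree.eval_map (g : O → O') (m : ι → V) (T : Tree ι V O) : (T.map g).eval m = g (T.eval m) := by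
  unfold Tree.map
  rw [Tree.eval_bind]
  rfl

theorem Tree.probes_ret (o : O) (t : ℕ) : (Tree.ret o : Tree ι V O).Probes t := by cases t <;> exact trivial

theorem Tree.probes_map (g : O → O') {T : Tree ι V O} {t : ℕ} (h : T.Probes t) : (T.map g).Probes t := by
  have := Tree.probes_bind (T := T) (g := fun o => (.ret (g o) : Tree ι V O')) (t' := 0) (fun o => Tree.probes_ret _ _) h
  exact this

/-- all the results of a finite family -/
theorem exists_pi [Inhabited O] (T : κ → Tree ι V O) (t : ℕ) (hT : ∀ c, (T c).Probes t) (F : Finset κ) :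
    ∃ S : Tree ι V (κ → O), S.Probes (F.card * t) ∧ ∀ m, ∀ c ∈ F, S.eval m c = (T c).eval m := by
  classical
  induction F using Finset.induction_on with
  | empty => exact ⟨.ret (fun _ => default), Tree.probes_ret _ _, fun m c hc => absurd hc (notMem_empty c)⟩
  | insert a F ha ih =>
    obtain ⟨S, h1, h2⟩ := ih
    refine ⟨S.bind (fun r => (T a).map (fun o => Function.update r a o)), ?_, ?_⟩
    · rw [card_insert_of_notMem ha, Nat.add_mul, one_mul]
      exact Tree.probes_bind (fun r => Tree.probes_map _ (hT a)) h1
    · intro m c hc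
      rw [Tree.eval_bind, Tree.eval_map]
      by_cases h : c = a
      · rw [h, Function.update_self]
      · rw [Function.update_of_ne h]
        exact h2 m c ((mem_insert.1 hc).resolve_left h)

theorem exists_pi_univ [Fintype κ] [Inhabited O] (T : κ → Tree ι V O) (t : ℕ) (hT : ∀ c, (T c).Probes t) :
    ∃ S : Tree ι V (κ → O), S.Probes (Fintype.card κ * t) ∧ ∀ m, S.eval m = fun c => (T c).eval m := by
  obtain ⟨S, h1, h2⟩ := exists_pi T t hT univ
  exact ⟨S, h1, fun m => funext fun c => h2 m c (mem_univ c)⟩

theorem t_TRE : S_TRE := by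
  intro ι V O O' ε κ _ _ _ _ Q t hQ zq F
  obtain ⟨S, h1, h2⟩ := exists_pi_univ (ι := ε ⊕ κ × ι) (V := V) (fun e : ε => Tree.probe (Sum.inl e) (fun v => .ret v)) 1
    (fun e v => trivial)
  have hR : ∀ ev : ε → V, ∃ R : Tree (ε ⊕ κ × ι) V (κ → O), R.Probes (Fintype.card κ * t) ∧ ∀ m, R.eval m =
      fun c => (((Q (zq ev c)).rename (fun i => Sum.inr (c, i)) : Tree (ε ⊕ κ × ι) V O)).eval m := fun ev =>
    exists_pi_univ _ t (fun c => Tree.probes_rename _ (hQ _))
  choose R hR1 hR2 using hR
  refine ⟨S.bind (fun ev => (R ev).map (F ev)), ?_, ?_⟩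
  · rw [mul_one] at h1
    exact Tree.probes_bind (fun ev => Tree.probes_map _ (hR1 ev)) h1
  · intro m
    rw [Tree.eval_bind, Tree.eval_map, h2, hR2]
    simp only [Tree.eval_rename]
    rfl

theorem t_IDX : S_IDX := by
  intro ι V O _ _ s t hs T hT
  obtain ⟨g⟩ := Function.Embedding.nonempty_of_card_le (show Fintype.card ι ≤ Fintype.card (Fin s) by
    rwa [Fintype.card_fin])
  refine ⟨fun z => (T z).rename g, fun z => Tree.probes_rename _ (hT z), fun m => ?_⟩
  classical
  refine ⟨fun i => if h : ∃ j, g j = i then m h.choose else default, fun z => ?_⟩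
  rw [Tree.eval_rename]
  congr 1
  funext i
  have h : ∃ j, g j = g i := ⟨i, rfl⟩
  rw [dif_pos h]
  exact congrArg m (g.injective h.choose_spec)

end Pool.Agent.J4H22.IX
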