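import Pool.Agent.J4H22.IX.Stm
import Pool.Agent.J4H22.IX.Tre
import Pool.Agent.J4H22.IX.A1
import Pool.Agent.J4H60.IX.Maj
import Pool.Agent.J4H60.IX.Sam
import Pool.Agent.J4H84.IX.Cnt
import Pool.Agent.J4H94.IX.Hg
import Pool.Agent.J4H94.IX.Hb
import Pool.Agent.J4H84.IX.Hsh
import Pool.Agent.J4H21.IX.A2
import Pool.Agent.J4H91.IX.A3
import Pool.Agent.J4H72.IX.Spl
import Pool.Agent.J4H68.IX.Asm

set_option autoImplicit false

/-! Project IX: assembly. -/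

namespace Pool.Agent.J4H22.IX

theorem par (hM : S_MAJ) (hHit : S_HIT) (hSam : S_SAM) (hIso : S_ISO) (hCnt : S_CNT) (hG : S_HG) (hB : S_HB) (hH : S_HSH)
    (hT : S_TRE) (hI : S_IDX) (h1 : S_A1) (h2 : S_A2) (h3 : S_A3) : S_PAR := by
  intro n s w t hn hw h
  have hnw : n ≤ 2 ^ w := by nlinarith
  have hw1 : 1 ≤ w := by
    rcases Nat.eq_zero_or_pos w with e | e
    · rw [e, pow_zero] at hw
      nlinarith
    · exact e
  have e1 := h1 hH hM hG hB hT hI n s w t hn hw h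
  have e2 := h2 hIso hHit hSam hT hI n _ w _ hnw e1
  have e3 := h3 hIso hCnt hHit hM hSam hT hI n _ w _ hw1 hnw e2
  have ee : ∀ s : ℕ, 10 * (w + 1) ^ 3 * (4 * (w + 1) ^ 2 * (12 * (w + 1) * (s + 1))) = 480 * (w + 1) ^ 6 * (s + 1) := by
    intro s
    ring
  rw [ee, ee] at e3
  exact e3

theorem main : S_FIN :=
  Pool.Agent.J4H68.IX.t_ASM
    (par Pool.Agent.J4H60.IX.t_MAJ Pool.Agent.J4H60.IX.t_HIT Pool.Agent.J4H60.IX.t_SAM Pool.Agent.J4H60.IX.t_ISO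
      Pool.Agent.J4H84.IX.t_CNT Pool.Agent.J4H94.IX.t_HG Pool.Agent.J4H94.IX.t_HB Pool.Agent.J4H84.IX.t_HSH
      t_TRE t_IDX t_A1 Pool.Agent.J4H21.IX.t_A2 Pool.Agent.J4H91.IX.t_A3)
    Pool.Agent.J4H72.IX.t_SPL t_IDX

end Pool.Agent.J4H22.IX
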