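import Pool.Agent.J4H22.IX.Main
import Pool.Agent.J4H22.IX.As2
import Pool.Agent.J4H94.IX.Che
import Pool.Agent.J4H94.IX.Amp
import Pool.Agent.J4H60.IX.Der
import Pool.Agent.J4H36.IX.Ras
import Pool.Agent.J4H84.IX.Uni

set_option autoImplicit false

/-! Project IX: assembly of the second part. -/

namespace Pool.Agent.J4H22.IX

theorem main2 : S_FIN2 :=
  t_AS2 main
    (fun c N hc hN => Pool.Agent.J4H36.IX.t_RAS Pool.Agent.J4H94.IX.t_AMP Pool.Agent.J4H60.IX.t_DER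
      Pool.Agent.J4H94.IX.t_CHE Pool.Agent.J4H94.IX.t_NEW Pool.Agent.J4H60.IX.t_MAJ t_TRE t_IDX c N hc hN)
    (fun c D hc => Pool.Agent.J4H84.IX.t_UNI Pool.Agent.J4H72.IX.t_SPL t_IDX c D hc)

end Pool.Agent.J4H22.IX
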