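import Pool.Agent.J4H22.IX.Main2
import Pool.Agent.J4H22.IX.A1C
import Pool.Agent.J4H94.IX.Amc
import Pool.Agent.J4H91.IX.Dec
import Pool.Agent.J4H53.IX.Rac
import Pool.Agent.J4H3.IX.Hgc
import Pool.Agent.J4H18.IX.Hbc
import Pool.Agent.J4H84.IX.Hsc
import Pool.Agent.J4H72.IX.Spc
import Pool.Agent.J4H87.IX.Emb
import Pool.Agent.J4H46.IX.Unc
import Pool.Agent.J4H68.IX.As3

set_option autoImplicit false

/-! Project IX: assembly of the third part. -/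

namespace Pool.Agent.J4H22.IX

theorem main3 : S_FIN3 :=
  Pool.Agent.J4H68.IX.t_AS3 main
    (fun c Cl hc hCl => Pool.Agent.J4H53.IX.t_RAC Pool.Agent.J4H94.IX.t_AMC Pool.Agent.J4H91.IX.t_DEC
      Pool.Agent.J4H94.IX.t_CHE Pool.Agent.J4H94.IX.t_NEW Pool.Agent.J4H60.IX.t_MAJ t_TRE t_IDX c Cl hc hCl)
    (fun c D hc => Pool.Agent.J4H46.IX.t_UNC Pool.Agent.J4H72.IX.t_SPC Pool.Agent.J4H87.IX.t_EMB t_IDX c D hc)
    (fun n s w t hn hw h => t_A1C Pool.Agent.J4H84.IX.t_HSC Pool.Agent.J4H60.IX.t_MAJ Pool.Agent.J4H3.IX.t_HGC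
      Pool.Agent.J4H18.IX.t_HBC t_TRE t_IDX n s w t hn hw h)

end Pool.Agent.J4H22.IX
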