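import Mathlib

set_option autoImplicit false

/-! Project IX (MP_e016b3_lc, 3SUM-Indexing): definitions and exact statements of the pieces.

GOAL: for words of `w = c ⌈log₂ n⌉` bits, `c ≥ 8`, the weakest form (arrays in `[0, 64 n²)`, only queries with at most one
representation) and the strongest form (all words, all queries, a witness, the number of representations up to a factor
`8`) of space `n ^ (2 - ε)` and polylogarithmic query time are equivalent. -/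

namespace Pool.Agent.J4H22.IX

open Finset

/-- An adaptive query procedure: memory cells with index in `ι` and contents in `V`, result in `O`. -/
inductive Tree (ι V O : Type) : Type
  | ret : O → Tree ι V O
  | probe : ι → (V → Tree ι V O) → Tree ι V O

/-- the result, if the memory is `m` -/
def Tree.eval {ι V O : Type} (m : ι → V) : Tree ι V O → O
  | .ret o => o
  | .probe i f => (f (m i)).eval m

/-- at most `t` cells are read -/
def Tree.Probes {ι V O : Type} : Tree ι V O → ℕ → Prop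
  | .ret _, _ => True
  | .probe _ _, 0 => False
  | .probe _ f, t + 1 => ∀ v, (f v).Probes t

/-- the number of representations `z = x + y` -/
def rep (A B : Finset ℕ) (z : ℕ) : ℕ := #{q ∈ A ×ˢ B | q.1 + q.2 = z}

/-- the data structure: `s` cells of `w` bits, `t` probes, for sets of at most `n` numbers below `N`; `Ok A B z o`: the
output `o` is allowed -/
def Structure (O : Type) (Ok : Finset ℕ → Finset ℕ → ℕ → O → Prop) (n N s w t : ℕ) : Prop :=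
  ∃ Q : ℕ → Tree (Fin s) (Fin (2 ^ w)) O, (∀ z, (Q z).Probes t) ∧
    ∀ A B : Finset ℕ, A.card ≤ n → B.card ≤ n → (∀ x ∈ A, x < N) → (∀ y ∈ B, y < N) →
      ∃ m : Fin s → Fin (2 ^ w), ∀ z, Ok A B z ((Q z).eval m)

/-- right on all queries -/
def OkFull (A B : Finset ℕ) (z : ℕ) (o : Bool) : Prop := o = true ↔ 1 ≤ rep A B z

/-- right on the queries with at most one representation -/
def OkWeak (A B : Finset ℕ) (z : ℕ) (o : Bool) : Prop := rep A B z ≤ 1 → (o = true ↔ 1 ≤ rep A B z)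

/-- a witness if there is one, and the number of representations up to a factor `8` -/
def OkStrong (A B : Finset ℕ) (z : ℕ) (o : Option (ℕ × ℕ) × ℕ) : Prop :=
  (rep A B z = 0 → o = (none, 0)) ∧
  (1 ≤ rep A B z → (∃ x ∈ A, ∃ y ∈ B, x + y = z ∧ o.1 = some (x, y)) ∧ rep A B z ≤ 8 * o.2 ∧ o.2 ≤ 8 * rep A B z)

/-! ### Random choices -/

/-- piece MAJ: `2 k` random choices, the majority is good for all `z`.  The product of `8` (bad) or `1` (good) has the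
mean `≤ (1 + 7 / 8) ^ (2 k)` (`Finset.prod_univ_sum`), so at least `k` are bad with probability
`≤ ((15/8)² / 8) ^ k < 2 ^ (-k)` -/
def S_MAJ : Prop := ∀ (Ω ι : Type) [Fintype Ω] (μ : Ω → ℝ) (Z : Finset ι) (Bad : ι → Set Ω) (k : ℕ), 1 ≤ k →
  (∀ ω, 0 ≤ μ ω) → ∑ ω, μ ω = 1 → (∀ z ∈ Z, ∑ ω, (Bad z).indicator μ ω ≤ 1 / 8) → Z.card ≤ 2 ^ k →
    ∃ f : Fin (2 * k) → Ω, ∀ z ∈ Z, {j | f j ∈ Bad z}.ncard < k

/-- piece HIT: `4 k` random choices, one of them is good, for all `z` -/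
def S_HIT : Prop := ∀ (Ω ι : Type) [Fintype Ω] (μ : Ω → ℝ) (Z : Finset ι) (Good : ι → Set Ω) (k : ℕ), 1 ≤ k →
  (∀ ω, 0 ≤ μ ω) → ∑ ω, μ ω = 1 → (∀ z ∈ Z, 1 / 6 ≤ ∑ ω, (Good z).indicator μ ω) → Z.card ≤ 2 ^ k →
    ∃ f : Fin (4 * k) → Ω, ∀ z ∈ Z, ∃ j, f j ∈ Good z

/-- piece SAM: the random subset of `A` with density `p` (`Finset.prod_add`) -/
def S_SAM : Prop := ∀ (A : Finset ℕ) (p : ℝ), 0 ≤ p → p ≤ 1 → ∃ μ : A.powerset → ℝ,
  (∀ ω, 0 ≤ μ ω) ∧ ∑ ω, μ ω = 1 ∧ ∀ X ⊆ A,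
    ∑ ω, ({T | Disjoint T.1 X} : Set A.powerset).indicator μ ω = (1 - p) ^ X.card ∧
    ∑ ω, ({T | (T.1 ∩ X).card = 1} : Set A.powerset).indicator μ ω = X.card * (p * (1 - p) ^ (X.card - 1))

/-- piece ISO: isolation.  `X z = {x ∈ A | z - x ∈ B}` has `rep A B z` elements; level `i` with
`2 ^ (i - 1) < rep A B z ≤ 2 ^ i`, density `2 ^ (-i)`, `r p (1 - p) ^ (r - 1) ≥ 1 / 6` -/
def S_ISO : Prop := S_HIT → S_SAM → ∀ (w : ℕ) (A B : Finset ℕ), A.card ≤ 2 ^ w →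
  ∃ S : Fin (w + 1) → Fin (4 * (w + 1)) → Finset ℕ, (∀ i j, S i j ⊆ A) ∧
    ∀ z < 2 ^ (w + 1), 1 ≤ rep A B z → ∃ i j, rep (S i j) B z = 1

/-- piece CNT: approximate counting -/
def S_CNT : Prop := S_MAJ → S_SAM → ∀ (w : ℕ) (A B : Finset ℕ),
  ∃ S : Fin (w + 1) → Fin (2 * (w + 1)) → Finset ℕ, (∀ i j, S i j ⊆ A) ∧
    ∀ z < 2 ^ (w + 1), ∀ i : Fin (w + 1),
      (4 * 2 ^ (i : ℕ) ≤ rep A B z → w + 1 < {j | 1 ≤ rep (S i j) B z}.ncard) ∧
      (8 * rep A B z ≤ 2 ^ (i : ℕ) → {j | 1 ≤ rep (S i j) B z}.ncard < w + 1)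

/-! ### Hashing -/

/-- the hash function -/
def hsh (p q a x : ℕ) : ℕ := a * x % p / q

/-- the four queries for `z` -/
def qry (p q a z : ℕ) (b : Fin 4) : ℕ :=
  if b = 0 then a * z % p / q else if b = 1 then a * z % p / q - 1 else
    if b = 2 then (a * z % p + p) / q else (a * z % p + p) / q - 1

/-- `a` is good for `z` -/
def GoodMul (p q : ℕ) (A B : Finset ℕ) (z a : ℕ) : Prop :=
  (∀ b, rep (A.image (hsh p q a)) (B.image (hsh p q a)) (qry p q a z b) ≤ 1) ∧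
  ((∃ b, 1 ≤ rep (A.image (hsh p q a)) (B.image (hsh p q a)) (qry p q a z b)) ↔ 1 ≤ rep A B z)

/-- piece HG: `a` is good for `z` if no false pair comes near -/
def S_HG : Prop := ∀ (p q : ℕ) (A B : Finset ℕ) (z a : ℕ), 1 ≤ q → 1 ≤ p → rep A B z ≤ 1 →
  (∀ x ∈ A, ∀ y ∈ B, x + y ≠ z → ∀ d : ℤ, |d| < 2 * q → ¬ (p : ℤ) ∣ (a : ℤ) * (x + y - z) - d) → GoodMul p q A B z a

/-- piece HB: few multipliers are bad -/
def S_HB : Prop := ∀ (p q n N : ℕ) (A B : Finset ℕ) (z : ℕ), p.Prime → 2 * N ≤ p → 1 ≤ n → 1 ≤ q → 256 * n ^ 2 ≤ p →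
  64 * n ^ 2 * (q - 1) ≤ p → A.card ≤ n → B.card ≤ n → (∀ x ∈ A, x < N) → (∀ y ∈ B, y < N) → z < 2 * N →
  8 * {a : ℕ | 1 ≤ a ∧ a < p ∧ ∃ x ∈ A, ∃ y ∈ B, x + y ≠ z ∧ ∃ d : ℤ, |d| < 2 * q ∧
    (p : ℤ) ∣ (a : ℤ) * (x + y - z) - d}.ncard ≤ p - 1

/-- piece HSH -/
def S_HSH : Prop := S_MAJ → S_HG → S_HB → ∀ n w : ℕ, 1 ≤ n → 64 * n ^ 2 ≤ 2 ^ w →
  ∃ p q : ℕ, 1 ≤ q ∧ p ≤ 2 ^ (w + 3) ∧ (∀ a x, hsh p q a x < 64 * n ^ 2) ∧
    ∀ A B : Finset ℕ, A.card ≤ n → B.card ≤ n → (∀ x ∈ A, x < 2 ^ w) → (∀ y ∈ B, y < 2 ^ w) →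
      ∃ a : Fin (2 * (w + 1)) → ℕ, (∀ j, a j < p) ∧
        ∀ z < 2 ^ (w + 1), rep A B z ≤ 1 → {j | ¬ GoodMul p q A B z (a j)}.ncard < w + 1

/-! ### Structures -/

/-- piece TRE: many queries at once; `ε` are additional cells, which are read first -/
def S_TRE : Prop := ∀ (ι V O O' ε κ : Type) [Fintype ε] [Fintype κ] [Inhabited V] [Inhabited O] (Q : ℕ → Tree ι V O) (t : ℕ),
  (∀ z, (Q z).Probes t) → ∀ (zq : (ε → V) → κ → ℕ) (F : (ε → V) → (κ → O) → O'),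
    ∃ T : Tree (ε ⊕ κ × ι) V O', T.Probes (Fintype.card ε + Fintype.card κ * t) ∧
      ∀ m : ε ⊕ κ × ι → V, T.eval m = F (fun e => m (Sum.inl e)) (fun c => (Q (zq (fun e => m (Sum.inl e)) c)).eval
        fun i => m (Sum.inr (c, i)))

/-- piece IDX: other names of the cells -/
def S_IDX : Prop := ∀ (ι V O : Type) [Fintype ι] [Inhabited V] (s t : ℕ), Fintype.card ι ≤ s → ∀ T : ℕ → Tree ι V O,
  (∀ z, (T z).Probes t) → ∃ Q : ℕ → Tree (Fin s) V O, (∀ z, (Q z).Probes t) ∧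
    ∀ m : ι → V, ∃ m' : Fin s → V, ∀ z, (Q z).eval m' = (T z).eval m

/-- piece A1: from the small universe to the large one -/
def S_A1 : Prop := S_HSH → S_MAJ → S_HG → S_HB → S_TRE → S_IDX → ∀ n s w t : ℕ, 1 ≤ n → 64 * n ^ 2 ≤ 2 ^ w →
  Structure Bool OkWeak n (64 * n ^ 2) s w t →
    Structure Bool OkWeak n (2 ^ w) (12 * (w + 1) * (s + 1)) w (12 * (w + 1) * (t + 1))

/-- piece A2: from unique representations to all queries -/
def S_A2 : Prop := S_ISO → S_HIT → S_SAM → S_TRE → S_IDX → ∀ n s w t : ℕ, n ≤ 2 ^ w →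
  Structure Bool OkWeak n (2 ^ w) s w t →
    Structure Bool OkFull n (2 ^ w) (4 * (w + 1) ^ 2 * s) w (4 * (w + 1) ^ 2 * t)

/-- piece A3: witnesses and counting.  Witness: for the sets `S i j` of ISO and each bit `β`, is there a representation
with `x ∈ S i j` and bit `β` of `x` equal to `1` (to `0`)?  If for each `β` exactly one of the two answers is positive
then there is exactly one `x` and its bits are known -/
def S_A3 : Prop := S_ISO → S_CNT → S_HIT → S_MAJ → S_SAM → S_TRE → S_IDX → ∀ n s w t : ℕ, 1 ≤ w → n ≤ 2 ^ w →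
  Structure Bool OkFull n (2 ^ w) s w t →
    Structure (Option (ℕ × ℕ) × ℕ) OkStrong n (2 ^ w) (10 * (w + 1) ^ 3 * s) w (10 * (w + 1) ^ 3 * t)

/-- piece SPL: other word lengths, `w' ≤ r w` -/
def S_SPL : Prop := S_IDX → ∀ (O : Type) (Ok : Finset ℕ → Finset ℕ → ℕ → O → Prop) (n N s w w' r t : ℕ), w' ≤ r * w →
  Structure O Ok n N s w' t → Structure O Ok n N (r * s) w (r * t)

/-! ### The forms -/

/-- truly subquadratic space and polylogarithmic query time, words of `c ⌈log₂ n⌉` bits, numbers below `N n` -/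
def Form (O : Type) (Ok : Finset ℕ → Finset ℕ → ℕ → O → Prop) (c : ℕ) (N : ℕ → ℕ) : Prop :=
  ∃ (ε : ℝ) (C : ℕ), 0 < ε ∧ ∀ n : ℕ, 2 ≤ n → ∃ s t : ℕ, (s : ℝ) ≤ C * (n : ℝ) ^ (2 - ε) ∧
    t ≤ C * Nat.clog 2 n ^ C ∧ Structure O Ok n (N n) s (c * Nat.clog 2 n) t

/-- the final statement (first: the weakest form, second: the form of the problem, third: the strongest form) -/
def S_FIN : Prop := ∀ c c' : ℕ, 8 ≤ c → 8 ≤ c' →
  [Form Bool OkWeak c (fun n => 64 * n ^ 2), Form Bool OkFull c (fun n => 2 ^ (c * Nat.clog 2 n)),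
    Form (Option (ℕ × ℕ) × ℕ) OkStrong c' (fun n => 2 ^ (c' * Nat.clog 2 n))].TFAE

/-- the parametric form, from A1, A2, A3 -/
def S_PAR : Prop := ∀ n s w t : ℕ, 1 ≤ n → 64 * n ^ 2 ≤ 2 ^ w → Structure Bool OkWeak n (64 * n ^ 2) s w t →
  Structure (Option (ℕ × ℕ) × ℕ) OkStrong n (2 ^ w) (480 * (w + 1) ^ 6 * (s + 1)) w (480 * (w + 1) ^ 6 * (t + 1))

/-- piece ASM: real asymptotics.  Monotonicity in `N`, `Ok`; output map `Option.isSome`; another word length with SPL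
(`c * clog ≤ c * (c' * clog)`, `r = c`), then PAR; `480 (w + 1) ^ 6 (C n ^ (2 - ε) + 1) ≤ C' n ^ (2 - ε / 2)` -/
def S_ASM : Prop := S_PAR → S_SPL → S_IDX → S_FIN

end Pool.Agent.J4H22.IX
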