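import Pool.Agent.J4H22.IX.Stm

set_option autoImplicit false

/-! Project IX (MP_e016b3_lc, 3SUM-Indexing), second part: random structures and universe `n² / (log n) ^ D`. -/

namespace Pool.Agent.J4H22.IX

open Finset

/-- random data structure with public coins: every output is allowed with probability at least `1 / 2 + δ` -/
def RStructure (O : Type) (Ok : Finset ℕ → Finset ℕ → ℕ → O → Prop) (n N s w t : ℕ) (δ : ℝ) : Prop :=
  ∃ (Ω : Type) (_ : Fintype Ω) (μ : Ω → ℝ) (Q : Ω → ℕ → Tree (Fin s) (Fin (2 ^ w)) O),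
    (∀ ω, 0 ≤ μ ω) ∧ ∑ ω, μ ω = 1 ∧ (∀ ω z, (Q ω z).Probes t) ∧
    ∀ A B : Finset ℕ, A.card ≤ n → B.card ≤ n → (∀ x ∈ A, x < N) → (∀ y ∈ B, y < N) →
      ∃ m : Ω → Fin s → Fin (2 ^ w), ∀ z,
        1 / 2 + δ ≤ ∑ ω, ({ω | Ok A B z ((Q ω z).eval (m ω))} : Set Ω).indicator μ ω

/-- truly subquadratic space, polylogarithmic query time, advantage one over a polylogarithm -/
def RForm (O : Type) (Ok : Finset ℕ → Finset ℕ → ℕ → O → Prop) (c : ℕ) (N : ℕ → ℕ) : Prop :=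
  ∃ (ε : ℝ) (C : ℕ), 0 < ε ∧ ∀ n : ℕ, 2 ≤ n → ∃ s t : ℕ, (s : ℝ) ≤ C * (n : ℝ) ^ (2 - ε) ∧
    t ≤ C * Nat.clog 2 n ^ C ∧ RStructure O Ok n (N n) s (c * Nat.clog 2 n) t (1 / ((C + 1) * (Nat.clog 2 n : ℝ) ^ C))

/-- piece CHE: with `λ = (1 + 2 δ) / (1 - 2 δ)` the mean of `λ ^ (number of bad)` is at most
`(1 / 2 + δ + λ (1 / 2 - δ)) ^ (2 k) = (1 + 2 δ) ^ (2 k)`, divided by `λ ^ k`: `(1 - 4 δ ^ 2) ^ k` -/
def S_CHE : Prop := ∀ (Ω : Type) [Fintype Ω] (μ : Ω → ℝ) (Bad : Set Ω) (δ : ℝ) (k : ℕ), 0 < δ → δ < 1 / 2 →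
  (∀ ω, 0 ≤ μ ω) → ∑ ω, μ ω = 1 → ∑ ω, Bad.indicator μ ω ≤ 1 / 2 - δ →
    ∑ f : Fin (2 * k) → Ω, ({f | k ≤ {j | f j ∈ Bad}.ncard} : Set (Fin (2 * k) → Ω)).indicator (fun f => ∏ j, μ (f j)) f ≤
      (1 - 4 * δ ^ 2) ^ k

/-- piece AMP: the majority of `2 k` independent copies -/
def S_AMP : Prop := S_CHE → S_TRE → S_IDX → ∀ (n N s w t k : ℕ) (δ : ℝ), 0 < δ → δ < 1 / 2 → (1 - 4 * δ ^ 2) ^ k ≤ 1 / 64 →
  RStructure Bool OkWeak n N s w t δ → RStructure Bool OkWeak n N (2 * k * s) w (2 * k * t) (31 / 64)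

/-- piece NEW (Newman): few coins are enough for all inputs; the mean of `16 ^ (number of bad)` is at most
`(79 / 64) ^ (8 m)`, and `(79 / 64) ^ 8 < 8` -/
def S_NEW : Prop := ∀ (Ω ι : Type) [Fintype Ω] (μ : Ω → ℝ) (Z : Finset ι) (Bad : ι → Set Ω) (m : ℕ), 1 ≤ m →
  (∀ ω, 0 ≤ μ ω) → ∑ ω, μ ω = 1 → (∀ z ∈ Z, ∑ ω, (Bad z).indicator μ ω ≤ 1 / 64) → Z.card ≤ 2 ^ m →
    ∃ f : Fin (8 * m) → Ω, ∀ z ∈ Z, {j | f j ∈ Bad z}.ncard < m

/-- piece DER: NEW for the inputs `(A, B, z)`, `z < 2 N`, `m = 3 (w + 1) (n + 1)` (there are at most `(N + 1) ^ n` sets of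
at most `n` numbers below `N`); then for given `A`, `B` MAJ with the uniform measure on the `8 m` coins, `k = w + 1`; the
index of each chosen coin is stored in two cells (`8 m ≤ 2 ^ (2 w)`); TRE with `Nat.pair` of the index and `z` as query -/
def S_DER : Prop := S_NEW → S_MAJ → S_TRE → S_IDX → ∀ n N s w t : ℕ, 8 ≤ w → n ^ 8 ≤ 2 ^ w → N ≤ 2 ^ w →
  RStructure Bool OkWeak n N s w t (31 / 64) → Structure Bool OkWeak n N (2 * (w + 1) * (s + 2)) w (2 * (w + 1) * (t + 2))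

/-- piece RAS: from random to deterministic structures (AMP with `δ / 4`, `k = ⌈32 / δ ^ 2⌉` or so, and DER) -/
def S_RAS : Prop := S_AMP → S_DER → S_CHE → S_NEW → S_MAJ → S_TRE → S_IDX → ∀ (c : ℕ) (N : ℕ → ℕ), 8 ≤ c →
  (∀ n, 2 ≤ n → N n ≤ 2 ^ (c * Nat.clog 2 n)) → RForm Bool OkWeak c N → Form Bool OkWeak c N

/-- piece UNI: the universe.  Use the structure for `n' = K n (clog n) ^ D` (then `n' ^ 2 / clog n' ^ D ≥ 64 n ^ 2`), with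
SPL for the word length -/
def S_UNI : Prop := S_SPL → S_IDX → ∀ c D : ℕ, 8 ≤ c → Form Bool OkWeak c (fun n => n ^ 2 / Nat.clog 2 n ^ D) →
  Form Bool OkWeak c (fun n => 64 * n ^ 2)

/-- the final statement: random structures, universe `n ^ 2 / (log n) ^ D`, unique sums <-> the form of the problem <->
the strongest form -/
def S_FIN2 : Prop := ∀ c c' D : ℕ, 8 ≤ c → 8 ≤ c' →
  [RForm Bool OkWeak c (fun n => n ^ 2 / Nat.clog 2 n ^ D), Form Bool OkFull c (fun n => 2 ^ (c * Nat.clog 2 n)),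
    Form (Option (ℕ × ℕ) × ℕ) OkStrong c' (fun n => 2 ^ (c' * Nat.clog 2 n))].TFAE

/-- piece AS2: assembly (a deterministic structure is a random one, with one coin; `C` may be enlarged) -/
def S_AS2 : Prop := S_FIN → (∀ (c : ℕ) (N : ℕ → ℕ), 8 ≤ c →
  (∀ n, 2 ≤ n → N n ≤ 2 ^ (c * Nat.clog 2 n)) → RForm Bool OkWeak c N → Form Bool OkWeak c N) →
  (∀ c D : ℕ, 8 ≤ c → Form Bool OkWeak c (fun n => n ^ 2 / Nat.clog 2 n ^ D) → Form Bool OkWeak c (fun n => 64 * n ^ 2)) →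
  S_FIN2

end Pool.Agent.J4H22.IX
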